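import Mathlib
import Pool.Agent.LibCor47.W
import Pool.Agent.LibTet23.F2

/-! # Hamiltonian tetrahedralizations: elimination of vertices with three neighbours -/

set_option autoImplicit false
open scoped Classical

namespace Pool.Agent.Results.MP_77e93b_co.Elimination

/-- the space -/
abbrev E : Type := EuclideanSpace ℝ (Fin 3)

/-- `V` is the vertex set of a 3-dimensional convex polytope -/
def IsVertexSet (V : Finset E) : Prop :=
  affineSpan ℝ (V : Set E) = ⊤ ∧ ∀ p ∈ V, p ∉ convexHull ℝ ((V.erase p : Finset E) : Set E)

/-- the segment joining the vertices `v` and `u` is an edge (an exposed face) of the polytope with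
vertex set `V` -/
def IsEdge (V : Finset E) (v u : E) : Prop :=
  u ≠ v ∧ IsExposed ℝ (convexHull ℝ (V : Set E)) (segment ℝ v u)

/-- the vertices outside `W` can be eliminated one after the other (in the order `f`, before `W`) from
the graph of the polytope with vertex set `V`, each having at most three neighbours at its turn; here
eliminating a vertex joins its neighbours pairwise: the graph is contained in a graph `H` in which every
vertex outside `W` has at most three later neighbours, and these are pairwise adjacent -/
def IsEliminable (V W : Finset E) : Prop :=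
  ∃ (H : E → E → Prop) (f : E → ℕ),
    (∀ x ∈ V, ∀ y ∈ V, f x = f y → x = y) ∧
    (∀ x ∈ V, ∀ y ∈ V, IsEdge V x y → H x y) ∧
    ∀ v ∈ V, v ∉ W → (∀ w ∈ W, f v < f w) ∧
      (V.filter fun u => H v u ∧ f v < f u).card ≤ 3 ∧
      ∀ x ∈ V, ∀ y ∈ V, H v x → H v y → f v < f x → f v < f y → x ≠ y → H x y

/-- `T` is a face-to-face tetrahedralization, using only its vertices, of the polytope with vertex
set `V`; the tetrahedra are given by their vertex sets -/
def IsTetrahedralization (V : Finset E) (T : Finset (Finset E)) : Prop :=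
  (∀ t ∈ T, t ⊆ V ∧ t.card = 4 ∧ AffineIndependent ℝ (fun x : t => (x.1 : E))) ∧
    (⋃ t ∈ T, convexHull ℝ (t : Set E)) = convexHull ℝ (V : Set E) ∧
    ∀ t ∈ T, ∀ u ∈ T, convexHull ℝ (t : Set E) ∩ convexHull ℝ (u : Set E) =
      convexHull ℝ ((t ∩ u : Finset E) : Set E)

/-- the tetrahedra can be listed so that each appears once and consecutive ones share a triangular
face -/
def HasHamiltonianPath (T : Finset (Finset E)) : Prop :=
  ∃ f : ℕ → Finset E, (∀ i < T.card, f i ∈ T) ∧
    (∀ i < T.card, ∀ j < T.card, f i = f j → i = j) ∧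
    ∀ i, i + 1 < T.card → (f i ∩ f (i + 1)).card = 3

/-- Let `V` be the vertex set of a 3-polytope and `W ⊆ V`, such that the vertices outside `W` can be
eliminated one after the other, each having at most three neighbours at its turn. If `W` has at most
four points, or its convex hull has a Hamiltonian tetrahedralization, then the polytope has a
Hamiltonian tetrahedralization. -/
theorem result : ∀ V W : Finset E, IsVertexSet V → W ⊆ V → IsEliminable V W →
    (W.card ≤ 4 ∨ ∃ T : Finset (Finset E), IsTetrahedralization W T ∧ HasHamiltonianPath T) →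
    ∃ T : Finset (Finset E), IsTetrahedralization V T ∧ HasHamiltonianPath T := by
  rintro V W h12 hWV ⟨H, f, h1, h2, h3⟩ hW
  obtain ⟨hV, hF, hadj⟩ := LibCor47.nat_of h12.1 h12.2
  have hW' : W.card ≤ 4 ∨ ∃ T, LibTet23.TetD W T ∧ LibTet23.HP T := by
    rcases hW with h | ⟨T, hT, g, g1, g2, g3⟩
    · exact Or.inl h
    · exact Or.inr ⟨T, LibTet23.tet_nat.2 hT, g, g1, g2, fun i hi =>
        (congrArg Finset.card (Finset.ext fun x => by simp only [Finset.mem_inter])).trans (g3 i hi)⟩
  obtain ⟨T', hT', g, g1, g2, g3⟩ := LibCor47.elim_three hV hF hWV hW' (H := H) (f := f)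
    ⟨h1, fun x hx y hy hxy => h2 x hx y hy (hadj x hx y hy hxy), fun v hv hvW => by
      obtain ⟨k1, k2, k3⟩ := h3 v hv hvW
      refine ⟨k1, Eq.trans_le (congrArg Finset.card (Finset.ext fun x => ?_)) k2, k3⟩
      constructor <;> intro hx <;> rw [Finset.mem_filter] at hx ⊢ <;> exact hx⟩
  exact ⟨T', LibTet23.tet_nat.1 hT', g, g1, g2, fun i hi =>
    (congrArg Finset.card (Finset.ext fun x => by simp only [Finset.mem_inter])).trans (g3 i hi)⟩

end Pool.Agent.Results.MP_77e93b_co.Elimination
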