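import Mathlib
import Pool.Agent.LibTet88.Z1
import Pool.Agent.LibTet88.Z2

/-! # Simple polytopes have Hamiltonian tetrahedralizations -/

set_option autoImplicit false
open scoped Classical

namespace Pool.Agent.Results.MP_77e93b_co.SimplePolytopes

/-- the space -/
abbrev E : Type := EuclideanSpace ℝ (Fin 3)

/-- `S` is the vertex set of a 3-dimensional convex polytope -/
def IsVertexSet (S : Finset E) : Prop :=
  affineSpan ℝ (S : Set E) = ⊤ ∧ ∀ p ∈ S, p ∉ convexHull ℝ ((S.erase p : Finset E) : Set E)

/-- the segment joining the vertices `v` and `u` is an edge (an exposed face) of the polytope with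
vertex set `S` -/
def IsEdge (S : Finset E) (v u : E) : Prop :=
  u ≠ v ∧ IsExposed ℝ (convexHull ℝ (S : Set E)) (segment ℝ v u)

/-- the polytope with vertex set `S` is simple: every vertex is on exactly three edges -/
def IsSimple (S : Finset E) : Prop := ∀ v ∈ S, {u | u ∈ S ∧ IsEdge S v u}.ncard = 3

/-- `T` is a face-to-face tetrahedralization, using only its vertices, of the polytope with vertex
set `S`; the tetrahedra are given by their vertex sets -/
def IsTetrahedralization (S : Finset E) (T : Finset (Finset E)) : Prop :=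
  (∀ t ∈ T, t ⊆ S ∧ t.card = 4 ∧ AffineIndependent ℝ (fun x : t => (x.1 : E))) ∧
    (⋃ t ∈ T, convexHull ℝ (t : Set E)) = convexHull ℝ (S : Set E) ∧
    ∀ t ∈ T, ∀ u ∈ T, convexHull ℝ (t : Set E) ∩ convexHull ℝ (u : Set E) =
      convexHull ℝ ((t ∩ u : Finset E) : Set E)

/-- the tetrahedra can be listed so that each appears once and consecutive ones share a triangular
face -/
def HasHamiltonianPath (T : Finset (Finset E)) : Prop :=
  ∃ f : ℕ → Finset E, (∀ i < T.card, f i ∈ T) ∧
    (∀ i < T.card, ∀ j < T.card, f i = f j → i = j) ∧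
    ∀ i, i + 1 < T.card → (f i ∩ f (i + 1)).card = 3

/-- Every simple 3-dimensional convex polytope has a Hamiltonian tetrahedralization, even one all of
whose tetrahedra have a common vertex. -/
theorem result : ∀ S : Finset E, IsVertexSet S → IsSimple S →
    ∃ w ∈ S, ∃ T : Finset (Finset E), IsTetrahedralization S T ∧ HasHamiltonianPath T ∧
      ∀ t ∈ T, w ∈ t := by
  intro S h12 h3
  have hS : LibTet88.Simp S := LibTet88.simp_of h12.1 h12.2 h3
  have hne : S.Nonempty := by
    rw [Finset.nonempty_iff_ne_empty]
    rintro rfl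
    have h1 := h12.1
    rw [Finset.coe_empty, AffineSubspace.span_empty] at h1
    exact absurd h1 bot_ne_top
  obtain ⟨w, hw, U, hU1, hU2, hU3, hU4⟩ := LibTet88.simp_ham hS hne
  exact ⟨w, hw, U, ⟨fun t ht => (hU1 t ht).2, hU2, hU3⟩, hU4, fun t ht => (hU1 t ht).1⟩

end Pool.Agent.Results.MP_77e93b_co.SimplePolytopes
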