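import Mathlib
import Pool.Agent.LibSt23.A7
import Pool.Agent.LibSt23.N2

/-! # Simplicial polytopes whose graph is partitioned into two forests and an independent set of
vertices whose stars are split into two runs have Hamiltonian tetrahedralizations -/

set_option autoImplicit false
open scoped Classical

namespace Pool.Agent.Results.MP_77e93b_co.StarForests

/-- the space -/
abbrev E : Type := EuclideanSpace ℝ (Fin 3)

/-- `V` is the vertex set of a 3-dimensional convex polytope -/
def IsVertexSet (V : Finset E) : Prop :=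
  affineSpan ℝ (V : Set E) = ⊤ ∧ ∀ p ∈ V, p ∉ convexHull ℝ ((V.erase p : Finset E) : Set E)

/-- the segment joining the vertices `v` and `u` is an edge (an exposed face) of the polytope with
vertex set `V` -/
def IsEdge (V : Finset E) (v u : E) : Prop :=
  u ≠ v ∧ IsExposed ℝ (convexHull ℝ (V : Set E)) (segment ℝ v u)

/-- the polytope with vertex set `V` is simplicial: a supporting plane contains at most three
vertices -/
def IsSimplicial (V : Finset E) : Prop :=
  ∀ (ℓ : E →ₗ[ℝ] ℝ) (c : ℝ), ℓ ≠ 0 → (∀ v ∈ V, ℓ v ≤ c) → (V.filter fun v => ℓ v = c).card ≤ 3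

/-- no plane contains four points of `V` -/
def InGeneralPosition (V : Finset E) : Prop :=
  ∀ (ℓ : E →ₗ[ℝ] ℝ) (c : ℝ), ℓ ≠ 0 → (V.filter fun v => ℓ v = c).card ≤ 3

/-- `F` is the set of the three vertices of a triangular facet of the polytope with vertex set
`V` -/
def IsFacet (V F : Finset E) : Prop :=
  F.card = 3 ∧ ∃ (ℓ : E →ₗ[ℝ] ℝ) (c : ℝ), ℓ ≠ 0 ∧ (∀ v ∈ V, ℓ v ≤ c) ∧ F = V.filter fun v => ℓ v = c

/-- the set `A` of vertices induces a forest in the graph of the polytope with vertex set `V`: every
nonempty subset of `A` has a member with at most one neighbour in the subset -/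
def IsForest (V A : Finset E) : Prop :=
  ∀ W ⊆ A, W.Nonempty → ∃ w ∈ W, (W.filter fun u => IsEdge V w u).card ≤ 1

/-- there are at most two pairs `x ∈ A`, `y ∈ B` such that `s`, `x`, `y` are the vertices of a
facet (if all neighbours of `s` are in `A` or `B`: going around `s` the neighbours in `A` form one
run and those in `B` another one) -/
def HasTwoRuns (V A B : Finset E) (s : E) : Prop :=
  ((A ×ˢ B).filter fun q => IsFacet V {s, q.1, q.2}).card ≤ 2

/-- the number of the neighbours of `s` in `A` -/
noncomputable def nbrs (V A : Finset E) (s : E) : ℕ := (A.filter fun u => IsEdge V s u).card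

/-- `T` is a face-to-face tetrahedralization, using only its vertices, of the polytope with vertex
set `V`; the tetrahedra are given by their vertex sets -/
def IsTetrahedralization (V : Finset E) (T : Finset (Finset E)) : Prop :=
  (∀ t ∈ T, t ⊆ V ∧ t.card = 4 ∧ AffineIndependent ℝ (fun x : t => (x.1 : E))) ∧
    (⋃ t ∈ T, convexHull ℝ (t : Set E)) = convexHull ℝ (V : Set E) ∧
    ∀ t ∈ T, ∀ u ∈ T, convexHull ℝ (t : Set E) ∩ convexHull ℝ (u : Set E) =
      convexHull ℝ ((t ∩ u : Finset E) : Set E)

/-- the tetrahedra can be listed so that each appears once and consecutive ones share a triangular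
face -/
def HasHamiltonianPath (T : Finset (Finset E)) : Prop :=
  ∃ f : ℕ → Finset E, (∀ i < T.card, f i ∈ T) ∧
    (∀ i < T.card, ∀ j < T.card, f i = f j → i = j) ∧
    ∀ i, i + 1 < T.card → (f i ∩ f (i + 1)).card = 3

/-- Let `V` be the vertex set of a simplicial 3-polytope which is the union of three sets `I`, `A`,
`B`, where `I` is independent in the graph of the polytope and `A` and `B` induce forests, and let
`s₀` be a point. Suppose that every `s ∈ I` has degree at most four, or its neighbours form two runs
(in `A` and in `B`) and either `s = s₀` or `V` is in general position and `s` has degree at most six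
or at most four neighbours in `A` and at most four in `B`. Then the polytope has a Hamiltonian
tetrahedralization. -/
theorem result : ∀ V : Finset E, IsVertexSet V → IsSimplicial V → ∀ I A B : Finset E,
    V = I ∪ A ∪ B → (∀ s ∈ I, ∀ t ∈ I, ¬ IsEdge V s t) → IsForest V A → IsForest V B → ∀ s₀ : E,
    (∀ s ∈ I, nbrs V V s ≤ 4 ∨ (HasTwoRuns V A B s ∧ (s = s₀ ∨ (InGeneralPosition V ∧
      (nbrs V V s ≤ 6 ∨ (nbrs V A s ≤ 4 ∧ nbrs V B s ≤ 4)))))) →
    ∃ T : Finset (Finset E), IsTetrahedralization V T ∧ HasHamiltonianPath T := by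
  intro V h12 h3 I A B hc h4 h6 h7 s₀ h5
  have hS : LibTet23.SV V := LibTet23.sv_of h12.1 h12.2 h3
  obtain ⟨S', A', B', hP⟩ := LibSt23.partS_nat hS (IsEdge V) (fun v u => Iff.rfl) (IsFacet V)
    (fun F => Iff.rfl) hc h4 s₀ h5 h6 h7
  obtain ⟨T, hT, hH⟩ := LibSt23.star_thm hS hP
  obtain ⟨f, f1, f2, f3⟩ := hH
  exact ⟨T, LibTet23.tet_nat.1 hT, f, f1, f2, fun i hi =>
    (congrArg Finset.card (Finset.ext fun x => by simp only [Finset.mem_inter])).trans (f3 i hi)⟩

end Pool.Agent.Results.MP_77e93b_co.StarForests
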