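import Mathlib
import Pool.Agent.LibGP88.Z1
import Pool.Agent.LibTF47.Z

/-! # Polytopes with a triangle-free graph have Hamiltonian tetrahedralizations -/

set_option autoImplicit false
open scoped Classical

namespace Pool.Agent.Results.MP_77e93b_co.TriangleFree

/-- the space -/
abbrev E : Type := EuclideanSpace ℝ (Fin 3)

/-- `V` is the vertex set of a 3-dimensional convex polytope -/
def IsVertexSet (V : Finset E) : Prop :=
  affineSpan ℝ (V : Set E) = ⊤ ∧ ∀ p ∈ V, p ∉ convexHull ℝ ((V.erase p : Finset E) : Set E)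

/-- the segment joining the vertices `v` and `u` is an edge (an exposed face) of the polytope with
vertex set `V` -/
def IsEdge (V : Finset E) (v u : E) : Prop :=
  u ≠ v ∧ IsExposed ℝ (convexHull ℝ (V : Set E)) (segment ℝ v u)

/-- the graph of the polytope has no triangle -/
def TriangleFree (V : Finset E) : Prop :=
  ∀ x ∈ V, ∀ y ∈ V, ∀ z ∈ V, IsEdge V x y → IsEdge V y z → IsEdge V x z → False

/-- `T` is a face-to-face tetrahedralization, using only its vertices, of the polytope with vertex
set `V`; the tetrahedra are given by their vertex sets -/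
def IsTetrahedralization (V : Finset E) (T : Finset (Finset E)) : Prop :=
  (∀ t ∈ T, t ⊆ V ∧ t.card = 4 ∧ AffineIndependent ℝ (fun x : t => (x.1 : E))) ∧
    (⋃ t ∈ T, convexHull ℝ (t : Set E)) = convexHull ℝ (V : Set E) ∧
    ∀ t ∈ T, ∀ u ∈ T, convexHull ℝ (t : Set E) ∩ convexHull ℝ (u : Set E) =
      convexHull ℝ ((t ∩ u : Finset E) : Set E)

/-- the tetrahedra can be listed so that each appears once and consecutive ones share a triangular
face -/
def HasHamiltonianPath (T : Finset (Finset E)) : Prop :=
  ∃ f : ℕ → Finset E, (∀ i < T.card, f i ∈ T) ∧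
    (∀ i < T.card, ∀ j < T.card, f i = f j → i = j) ∧
    ∀ i, i + 1 < T.card → (f i ∩ f (i + 1)).card = 3

/-- Every 3-dimensional convex polytope whose graph has no triangle has a Hamiltonian
tetrahedralization, even one all of whose tetrahedra have a common vertex. -/
theorem result : ∀ V : Finset E, IsVertexSet V → TriangleFree V →
    ∃ w ∈ V, ∃ T : Finset (Finset E), IsTetrahedralization V T ∧ HasHamiltonianPath T ∧
      ∀ t ∈ T, w ∈ t := by
  rintro V ⟨h1, h2⟩ hT
  have hV := LibGP88.gen_of h1 h2
  have hTF : LibGP88.TF V := LibGP88.tf_of hV fun x hx y hy z hz a b c => hT x hx y hy z hz a b c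
  obtain ⟨w, hw, U, hU, h3, h4, h5⟩ := LibTF47.triangle_free_ham hV hTF
  exact ⟨w, hw, U, ⟨fun t ht => (hU t ht).2, h3, h4⟩, h5, fun t ht => (hU t ht).1⟩

end Pool.Agent.Results.MP_77e93b_co.TriangleFree
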